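import Pool.Agent.Lib.MP_524519_ag.DU5.PC.DVP
import Pool.Agent.Lib.MP_524519_ag.DU5.PC.EUL
import Pool.Agent.Lib.MP_524519_ag.DU5.PC.EVI
import Pool.Agent.Lib.MP_524519_ag.DU5.PC.FNL
import Pool.Agent.Lib.MP_524519_ag.DU5.PC.GOR
import Pool.Agent.Lib.MP_524519_ag.DU5.PC.INT
import Pool.Agent.Lib.MP_524519_ag.DU5.PC.NP
import Pool.Agent.Lib.MP_524519_ag.DU5.PC.ORD
import Pool.Agent.Lib.MP_524519_ag.DU5.PC.PCP
import Pool.Agent.Lib.MP_524519_ag.DU5.PC.WEI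
import Pool.Agent.Lib.MP_524519_ag.DU5.PC.WFC
import Pool.Agent.Lib.MP_524519_ag.DU5.PC.H31.LXP
import Pool.Agent.Lib.MP_524519_ag.DU5.LNK.PC2
import Pool.Agent.Lib.MP_524519_ag.DU5.LNK.NIL
import Pool.Agent.Lib.MP_524519_ag.DU5.LNK.H03.Vbk
import Pool.Agent.Lib.MP_524519_ag.DU5.LNK.H47.TYK
import Pool.Agent.Lib.MP_524519_ag.DU5.LNK.H62.LNB
import Pool.Agent.Lib.MP_524519_ag.DU5.LNK.H7.SUK
import Pool.Agent.Lib.MP_524519_ag.DU5.LNK.H72.ARK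
import Pool.Agent.Lib.MP_524519_ag.DU5.LNK.H78.LNK
import Pool.Agent.Lib.MP_524519_ag.DU5.TR.H57.Chn

/-! # The plane curve -/

set_option autoImplicit false

namespace Pool.Agent.DU5.All

open Pool.Agent.DU5.PC Pool.Agent.DU5.LNK

theorem np : NpStatement := PC.np PC.wfc

theorem pcp : PcpStatement := PC.pcp (PC.dvp PC.eul PC.int) PC.gor PC.fnl PC.lxp

theorem pc2 : Pc2Statement := LNK.pc2 np pcp PC.wei PC.evi PC.ord PC.fnl LNK.lnb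

theorem lnk : LNKStatement :=
  LNK.lnk pc2 LNK.suk LNK.ark (LNK.tyk LNK.suk LNK.ark) (LNK.H03.vbk TR.H57.chn LNK.nil)

end Pool.Agent.DU5.All
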