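import Pool.Agent.Lib.MP_524519_ag.DU5.LNK.H7.SUK

set_option autoImplicit false

namespace Pool.Agent.DU5.All

theorem reg : REGStatement := by
  intro k _ F _ _ lam d f h
  exact (LNK.suk k F lam).2.2.2.2 d f h

end Pool.Agent.DU5.All
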