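import Pool.Agent.Lib.MP_524519_ag.DU5.TR.Iface
import Pool.Agent.Lib.MP_524519_ag.DU5.TR.H03.Newt
import Pool.Agent.Lib.MP_524519_ag.DU5.TR.H17.Cng
import Pool.Agent.Lib.MP_524519_ag.DU5.TR.H17.Det
import Pool.Agent.Lib.MP_524519_ag.DU5.TR.H17.Lam
import Pool.Agent.Lib.MP_524519_ag.DU5.TR.H18.Nak
import Pool.Agent.Lib.MP_524519_ag.DU5.TR.H18.Nicf
import Pool.Agent.Lib.MP_524519_ag.DU5.TR.H19.Lnr
import Pool.Agent.Lib.MP_524519_ag.DU5.TR.H20.Semi
import Pool.Agent.Lib.MP_524519_ag.DU5.TR.H22.Ind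
import Pool.Agent.Lib.MP_524519_ag.DU5.TR.H38.Tay
import Pool.Agent.Lib.MP_524519_ag.DU5.TR.H50.Rnk
import Pool.Agent.Lib.MP_524519_ag.DU5.TR.H50.Stp2
import Pool.Agent.Lib.MP_524519_ag.DU5.TR.H57.Chn
import Pool.Agent.Lib.MP_524519_ag.DU5.TR.H61.Arcl
import Pool.Agent.Lib.MP_524519_ag.DU5.TR.H63.Lift
import Pool.Agent.Lib.MP_524519_ag.DU5.TR.H75.Bch
import Pool.Agent.Lib.MP_524519_ag.DU5.TR.H75.Dtc
import Pool.Agent.Lib.MP_524519_ag.DU5.TR.H82.Dfr
import Pool.Agent.Lib.MP_524519_ag.DU5.TR.H82.Stp1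
import Pool.Agent.Lib.MP_524519_ag.DU5.TR.H84.Pole

/-! # The transfer from `ℂ` to characteristic `p` -/

set_option autoImplicit false

namespace Pool.Agent.DU5.All

open Pool.Agent.DU5.TR

theorem newt : NewtStatement := H03.newt H38.tay H17.cng

theorem arcl : ArclStatement := H61.arcl H17.cng newt

theorem stp1 : Stp1Statement := H82.stp1 H22.ind (H17.lam (H84.pole H57.chn) lift arcl) H17.det

theorem stp2 : Stp2Statement := H50.stp2 lift arcl H75.bch H82.dfr (H20.semi H18.nak H50.rnk)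

theorem dtc : DtcStatement := H75.dtc (H18.nicf H82.dfr) H75.bch H22.ind

theorem trS : TRStatement := trStatement (tr stp1 stp2 dtc)

theorem final (cp : CPStatement) : FinStatement := fin lnr trS cp

end Pool.Agent.DU5.All
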