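import Pool.Agent.Lib.MP_524519_ag.DU5.CP.Cp
import Pool.Agent.Lib.MP_524519_ag.DU5.All.Tr
import Pool.Agent.Lib.MP_524519_ag.DU5.All.Lnk
import Pool.Agent.Lib.MP_524519_ag.DU5.All.Reg
import Pool.Agent.Lib.MP_524519_ag.DU5.AB.H10.All
import Pool.Agent.Lib.MP_524519_ag.DU5.RES.Res
import Pool.Agent.Lib.MP_524519_ag.DU5.TE1.Main
import Pool.Agent.Lib.MP_524519_ag.DU5.TE.H12.All
import Pool.Agent.Lib.MP_524519_ag.DU5.FLD.Fld
import Pool.Agent.Lib.MP_524519_ag.DU5.SM.Jis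
import Pool.Agent.Lib.MP_524519_ag.DU5.SM.Sub
import Pool.Agent.Lib.MP_524519_ag.DU5.SM.Shr
import Pool.Agent.Lib.MP_524519_ag.DU5.SM.Shr2
import Pool.Agent.Lib.MP_524519_ag.DU5.LD.Ld
import Pool.Agent.Lib.MP_524519_ag.DU5.LE.Le
import Pool.Agent.Lib.MP_524519_ag.DU5.NUM.Num

/-! # Durfee's inequality -/

set_option autoImplicit false

namespace Pool.Agent.DU5.All

theorem cpS : CPStatement :=
  CP.cp SM.jis (SM.fni AB.H61.mx AB.H17.mpow AB.H22.isp) AB.H10.ab RES.res lnk te1 TE.te2All fld shr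
    reg LD.ld LE.le num

theorem main : TR.FinStatement := final cpS

end Pool.Agent.DU5.All
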